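import Mathlib

/-!
# MP_2a0133_al, Q1

A simplicial complex whose symbolic defect polynomials are not asymptotically quasi-unimodal.
-/

namespace Pool.Agent.Results.MP_2a0133_al.Valley

open MvPolynomial

/-- A finite simplicial complex on the vertices `0, …, n - 1`. -/
structure Cplx (n : ℕ) where
  /-- The faces. -/
  faces : Finset (Finset (Fin n))
  /-- Subsets of faces are faces. -/
  down : ∀ F ∈ faces, ∀ G ⊆ F, G ∈ faces

/-- The dimension: one less than the maximal cardinality of a face. -/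
def Cplx.dim {n : ℕ} (Δ : Cplx n) : ℕ := Δ.faces.sup Finset.card - 1

/-- `F` is a facet: a face contained in no other face. -/
def Cplx.IsFacet {n : ℕ} (Δ : Cplx n) (F : Finset (Fin n)) : Prop :=
  F ∈ Δ.faces ∧ ∀ G ∈ Δ.faces, F ⊆ G → G = F

/-- The complex `Δ^{[i]}` generated by the `i`-dimensional faces of `Δ`. -/
def Cplx.skel {n : ℕ} (Δ : Cplx n) (i : ℕ) : Cplx n where
  faces := {G ∈ Δ.faces | ∃ F ∈ Δ.faces, F.card = i + 1 ∧ G ⊆ F}
  down := by
    intro F hF G hG
    simp only [Finset.mem_filter] at hF ⊢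
    obtain ⟨h1, F', h2, h3, h4⟩ := hF
    exact ⟨Δ.down F h1 G hG, F', h2, h3, hG.trans h4⟩

/-- The facet ideal. -/
noncomputable def facetIdeal (𝕂 : Type*) [Field 𝕂] {n : ℕ} (Δ : Cplx n) :
    Ideal (MvPolynomial (Fin n) 𝕂) :=
  Ideal.span {p | ∃ F, Δ.IsFacet F ∧ p = ∏ v ∈ F, X v}

/-- The symbolic power `I^{(m)}`, the intersection of the `m`-th powers of the minimal primes. -/
noncomputable def symb {S : Type*} [CommRing S] (I : Ideal S) (m : ℕ) : Ideal S :=
  ⨅ P ∈ I.minimalPrimes, P ^ m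

/-- The minimal number of generators of the module `J / (K ∩ J)`. -/
noncomputable def numGen {S : Type*} [CommRing S] (J K : Ideal S) : ℕ :=
  (⊤ : Submodule S (J ⧸ Submodule.submoduleOf K J)).spanFinrank

/-- The symbolic defect: the minimal number of generators of `I^{(m)} / I^m`. -/
noncomputable def sdefect {S : Type*} [CommRing S] (I : Ideal S) (m : ℕ) : ℕ :=
  numGen (symb I m) (I ^ m)

/-- `a_1, …, a_p` is unimodal. -/
def Unimodal (a : ℕ → ℕ) (p : ℕ) : Prop :=
  p = 0 ∨ ∃ k, 1 ≤ k ∧ k ≤ p ∧ (∀ i, 1 ≤ i → i < k → a i ≤ a (i + 1)) ∧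
    (∀ i, k ≤ i → i < p → a (i + 1) ≤ a i)

/-- The coefficient of `t^{i+2}` of the symbolic defect polynomial `μ_m(Δ, t)`, `1 ≤ i ≤ d - 1`. -/
noncomputable def muCoeff (𝕂 : Type*) [Field 𝕂] {n : ℕ} (Δ : Cplx n) (m i : ℕ) : ℕ :=
  sdefect (facetIdeal 𝕂 (Δ.skel i)) m

/-- The sequence of symbolic defect polynomials is asymptotically quasi-unimodal. -/
def AsympQuasiUnimodal (𝕂 : Type*) [Field 𝕂] {n : ℕ} (Δ : Cplx n) : Prop :=
  ∃ k, 1 ≤ k ∧ ∃ N, ∀ l, N ≤ l → k ∣ l → Unimodal (muCoeff 𝕂 Δ l) (Δ.dim - 1)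

/-! ### Ideals defined by exponents -/

variable {𝕂 : Type*} [Field 𝕂] {n : ℕ}

/-- The ideal of the polynomials all of whose monomials have degree at least `m` in the
variables in `C`. -/
def D (𝕂 : Type*) [Field 𝕂] {n : ℕ} (C : Finset (Fin n)) (m : ℕ) :
    Ideal (MvPolynomial (Fin n) 𝕂) where
  carrier := {f | ∀ c ∈ f.support, m ≤ ∑ v ∈ C, c v}
  zero_mem' := by simp
  add_mem' := by
    intro f g hf hg c hc
    rcases Finset.mem_union.mp (MvPolynomial.support_add hc) with h | h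
    · exact hf c h
    · exact hg c h
  smul_mem' := by
    intro p f hf c hc
    rw [smul_eq_mul] at hc
    obtain ⟨a, -, b, hb, rfl⟩ := Finset.mem_add.mp (MvPolynomial.support_mul _ _ hc)
    have := hf b hb
    simp only [Finsupp.add_apply, Finset.sum_add_distrib]
    omega

theorem mem_D {C : Finset (Fin n)} {m : ℕ} {f : MvPolynomial (Fin n) 𝕂} :
    f ∈ D 𝕂 C m ↔ ∀ c ∈ f.support, m ≤ ∑ v ∈ C, c v := Iff.rfl

theorem D_zero {C : Finset (Fin n)} : D 𝕂 C 0 = ⊤ := by
  ext f
  simp [mem_D]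

theorem D_mul {C : Finset (Fin n)} {m m' : ℕ} : D 𝕂 C m * D 𝕂 C m' ≤ D 𝕂 C (m + m') := by
  rw [Ideal.mul_le]
  intro f hf g hg c hc
  obtain ⟨a, ha, b, hb, rfl⟩ := Finset.mem_add.mp (MvPolynomial.support_mul _ _ hc)
  have h1 := hf a ha
  have h2 := hg b hb
  simp only [Finsupp.add_apply, Finset.sum_add_distrib]
  omega

theorem pow_le_D {C : Finset (Fin n)} {e : ℕ} {I : Ideal (MvPolynomial (Fin n) 𝕂)}
    (h : I ≤ D 𝕂 C e) (m : ℕ) : I ^ m ≤ D 𝕂 C (e * m) := by
  induction m with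
  | zero => simp [D_zero]
  | succ m ih =>
    rw [pow_succ, mul_add, mul_one]
    exact (Ideal.mul_mono ih h).trans D_mul

theorem D_le_pow {C : Finset (Fin n)} {P : Ideal (MvPolynomial (Fin n) 𝕂)}
    (h : ∀ v ∈ C, X v ∈ P) (m : ℕ) : D 𝕂 C m ≤ P ^ m := by
  intro f hf
  rw [f.as_sum]
  refine Ideal.sum_mem _ fun c hc => ?_
  have hm := hf c hc
  apply Ideal.pow_le_pow_right hm
  rw [MvPolynomial.monomial_eq, Finsupp.prod_fintype _ _ (by simp)]
  apply Ideal.mul_mem_left
  rw [← Finset.prod_mul_prod_compl C]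
  apply Ideal.mul_mem_right
  have h1 : ∀ s : Finset (Fin n), s ⊆ C →
      ∏ v ∈ s, (X v : MvPolynomial (Fin n) 𝕂) ^ c v ∈ P ^ (∑ v ∈ s, c v) := by
    intro s
    induction s using Finset.induction_on with
    | empty => simp
    | insert v s hv ih =>
      intro hs
      rw [Finset.prod_insert hv, Finset.sum_insert hv, pow_add]
      exact Ideal.mul_mem_mul (Ideal.pow_mem_pow (h v (hs (Finset.mem_insert_self _ _))) _)
        (ih fun w hw => hs (Finset.mem_insert_of_mem hw))
  exact h1 C le_rfl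

/-- The substitution that kills the variables in `C`. -/
noncomputable def kill (𝕂 : Type*) [Field 𝕂] {n : ℕ} (C : Finset (Fin n)) :
    MvPolynomial (Fin n) 𝕂 →ₐ[𝕂] MvPolynomial (Fin n) 𝕂 :=
  aeval fun v => if v ∈ C then 0 else X v

theorem kill_monomial {C : Finset (Fin n)} (c : Fin n →₀ ℕ) (r : 𝕂) :
    kill 𝕂 C (monomial c r) = if (∑ v ∈ C, c v) = 0 then monomial c r else 0 := by
  rw [kill, aeval_monomial, Finsupp.prod_fintype _ _ (by simp)]
  split_ifs with h
  · rw [Finset.sum_eq_zero_iff] at h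
    rw [MvPolynomial.monomial_eq, Finsupp.prod_fintype _ _ (by simp)]
    congr 1
    refine Finset.prod_congr rfl fun v _ => ?_
    split_ifs with hv
    · rw [h v hv, pow_zero, pow_zero]
    · rfl
  · rw [Finset.sum_eq_zero_iff] at h
    push Not at h
    obtain ⟨v, hv, hc⟩ := h
    rw [Finset.prod_eq_zero (Finset.mem_univ v), mul_zero]
    rw [if_pos hv, zero_pow hc]

theorem ker_kill_le {C : Finset (Fin n)} : RingHom.ker (kill 𝕂 C) ≤ D 𝕂 C 1 := by
  intro f hf c hc
  by_contra hcon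
  have h0 : ∑ v ∈ C, c v = 0 := by omega
  rw [RingHom.mem_ker] at hf
  have h1 : coeff c (kill 𝕂 C f) = coeff c f := by
    conv_lhs => rw [f.as_sum]
    rw [map_sum, MvPolynomial.coeff_sum]
    simp only [kill_monomial]
    rw [Finset.sum_eq_single c]
    · rw [if_pos h0, coeff_monomial, if_pos rfl]
    · intro b _ hb
      split_ifs
      · rw [coeff_monomial, if_neg hb]
      · simp
    · intro h
      exact absurd hc h
  rw [hf, coeff_zero] at h1
  exact (mem_support_iff.mp hc) h1.symm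

/-- The ideal generated by the squarefree monomials of the sets in `E`. -/
noncomputable def edgeIdeal (𝕂 : Type*) [Field 𝕂] {n : ℕ} (E : Set (Finset (Fin n))) :
    Ideal (MvPolynomial (Fin n) 𝕂) := Ideal.span {p | ∃ F, F ∈ E ∧ p = ∏ v ∈ F, X v}

/-- `C` meets all sets in `E`. -/
def Covers (E : Set (Finset (Fin n))) (C : Finset (Fin n)) : Prop := ∀ F ∈ E, ∃ v ∈ F, v ∈ C

theorem mem_symb {E : Set (Finset (Fin n))} {m : ℕ} {f : MvPolynomial (Fin n) 𝕂} :
    f ∈ symb (edgeIdeal 𝕂 E) m ↔ ∀ c ∈ f.support, ∀ C, Covers E C → m ≤ ∑ v ∈ C, c v := by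
  constructor
  · intro hf c hc C hC
    have hprime : (RingHom.ker (kill 𝕂 C)).IsPrime := RingHom.ker_isPrime _
    have hle : edgeIdeal 𝕂 E ≤ RingHom.ker (kill 𝕂 C) := by
      rw [edgeIdeal, Ideal.span_le]
      rintro p ⟨F, hF, rfl⟩
      obtain ⟨v, hv, hvC⟩ := hC F hF
      rw [SetLike.mem_coe, RingHom.mem_ker, map_prod]
      apply Finset.prod_eq_zero hv
      rw [kill, aeval_X, if_pos hvC]
    obtain ⟨P, hP, hPle⟩ := Ideal.exists_minimalPrimes_le hle
    have h1 : f ∈ P ^ m := by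
      rw [symb] at hf
      simp only [Ideal.mem_iInf] at hf
      exact hf P hP
    have h2 : P ^ m ≤ D 𝕂 C (1 * m) := pow_le_D (hPle.trans ker_kill_le) m
    have := h2 h1 c hc
    omega
  · intro h
    rw [symb]
    simp only [Ideal.mem_iInf]
    intro P hP
    have hprime : P.IsPrime := hP.1.1
    have hle : edgeIdeal 𝕂 E ≤ P := hP.1.2
    classical
    let C : Finset (Fin n) := Finset.univ.filter fun v => (X v : MvPolynomial (Fin n) 𝕂) ∈ P
    have hC : Covers E C := by
      intro F hF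
      have h1 : (∏ v ∈ F, X v : MvPolynomial (Fin n) 𝕂) ∈ P :=
        hle (Ideal.subset_span ⟨F, hF, rfl⟩)
      obtain ⟨v, hv, hvP⟩ := (hprime.prod_mem_iff).mp h1
      exact ⟨v, hv, by simp [C, hvP]⟩
    exact D_le_pow (C := C) (by intro v hv; simpa [C] using hv) m fun c hc => h c hc C hC

/-! ### Numbers of generators -/

theorem numGen_le {S : Type*} [CommRing S] [IsNoetherianRing S] {J K : Ideal S} (G : Set S)
    (hG : G.Finite) (hGJ : G ⊆ J) (h : J ≤ Ideal.span G) : numGen J K ≤ G.ncard := by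
  let q : J →ₗ[S] J ⧸ Submodule.submoduleOf K J := Submodule.mkQ _
  let T : Set (J ⧸ Submodule.submoduleOf K J) := q '' (Subtype.val ⁻¹' G)
  have hT : Submodule.span S T = ⊤ := by
    have h1 : Submodule.span S (Subtype.val ⁻¹' G : Set J) = ⊤ := by
      rw [Submodule.eq_top_iff']
      intro x
      have h2 : x.1 ∈ Submodule.span S G := h x.2
      have h3 : Submodule.map (Submodule.subtype J) (Submodule.span S (Subtype.val ⁻¹' G : Set J))
          = Submodule.span S G := by
        rw [Submodule.map_span]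
        congr 1
        ext y
        constructor
        · rintro ⟨z, hz, rfl⟩
          exact hz
        · intro hy
          exact ⟨⟨y, hGJ hy⟩, hy, rfl⟩
      rw [← h3] at h2
      obtain ⟨y, hy, hyx⟩ := h2
      have : y = x := Subtype.ext hyx
      rwa [← this]
    rw [← Submodule.map_span, h1, Submodule.map_top, Submodule.range_mkQ]
  have hfin : (Subtype.val ⁻¹' G : Set J).Finite :=
    hG.preimage Subtype.val_injective.injOn
  have hTfin : T.Finite := hfin.image _
  rw [numGen, ← hT]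
  calc (Submodule.span S T).spanFinrank ≤ T.ncard :=
        Submodule.spanFinrank_span_le_ncard_of_finite hTfin
    _ ≤ (Subtype.val ⁻¹' G : Set J).ncard := Set.ncard_image_le hfin
    _ ≤ G.ncard := by
      apply Set.ncard_le_ncard_of_injOn Subtype.val _ Subtype.val_injective.injOn hG
      intro x hx
      exact hx

theorem le_numGen {J K : Ideal (MvPolynomial (Fin n) 𝕂)} {EJ : Set (Fin n →₀ ℕ)}
    (hJ : ∀ f, f ∈ J ↔ ∀ c ∈ f.support, c ∈ EJ) (A : Finset (Fin n →₀ ℕ))
    (hA : ∀ a ∈ A, a ∈ EJ) (hmin : ∀ a ∈ A, ∀ c ∈ EJ, c ≤ a → c = a)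
    (hK : ∀ a ∈ A, ∀ f ∈ K, coeff a f = 0) : A.card ≤ numGen J K := by
  classical
  obtain ⟨T, hTc, hT⟩ := Submodule.FG.exists_span_finset_card_eq_spanFinrank
    (p := (⊤ : Submodule (MvPolynomial (Fin n) 𝕂) (J ⧸ Submodule.submoduleOf K J)))
    (Module.Finite.fg_top)
  rw [numGen, ← hTc]
  let φ : MvPolynomial (Fin n) 𝕂 →ₗ[𝕂] (A → 𝕂) := LinearMap.pi fun a => lcoeff 𝕂 a.1
  have hφ : ∀ f a, φ f a = coeff a.1 f := fun f a => rfl
  have hφK : ∀ f ∈ K, φ f = 0 := by
    intro f hf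
    funext a
    rw [hφ]
    exact hK a.1 a.2 f hf
  have hφJ : ∀ f ∈ J, ∀ p : MvPolynomial (Fin n) 𝕂, φ (p * f) = coeff 0 p • φ f := by
    intro f hf p
    funext a
    rw [Pi.smul_apply, hφ, hφ, coeff_mul, Finset.sum_eq_single ((0 : Fin n →₀ ℕ), a.1)]
    · rfl
    · rintro ⟨b, c⟩ hbc hne
      rw [Finset.HasAntidiagonal.mem_antidiagonal] at hbc
      by_cases hc : coeff c f = 0
      · simp [hc]
      · exfalso
        have h1 : c ∈ EJ := (hJ f).mp hf c (mem_support_iff.mpr hc)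
        have h2 : c ≤ a.1 := by
          rw [← hbc]
          exact le_add_self
        have h3 := hmin a.1 a.2 c h1 h2
        subst h3
        apply hne
        have : b = 0 := by simpa using hbc
        rw [this]
    · intro h
      exfalso
      apply h
      simp
  -- lifts of the generators
  have hsurj : ∀ t : J ⧸ Submodule.submoduleOf K J, ∃ g : J,
      Submodule.Quotient.mk g = t := Submodule.Quotient.mk_surjective _
  choose g hg using hsurj
  let W : Submodule 𝕂 (A → 𝕂) := Submodule.span 𝕂 (↑(T.image fun t => φ (g t).1) : Set (A → 𝕂))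
  have hW : ∀ x : J, φ x.1 ∈ W := by
    intro x
    have hx : Submodule.Quotient.mk (p := Submodule.submoduleOf K J) x ∈
        Submodule.span (MvPolynomial (Fin n) 𝕂) (T : Set (J ⧸ Submodule.submoduleOf K J)) := by
      rw [hT]
      trivial
    have key : ∀ t : J ⧸ Submodule.submoduleOf K J, t ∈ Submodule.span (MvPolynomial (Fin n) 𝕂)
        (T : Set (J ⧸ Submodule.submoduleOf K J)) → ∀ x : J, Submodule.Quotient.mk x = t →
        φ x.1 ∈ W := by
      intro t ht
      have hwd : ∀ x y : J, (Submodule.Quotient.mk (p := Submodule.submoduleOf K J) x) =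
          Submodule.Quotient.mk y → φ x.1 = φ y.1 := by
        intro x y hxy
        rw [Submodule.Quotient.eq] at hxy
        have : φ (x.1 - y.1) = 0 := hφK _ hxy
        rw [map_sub, sub_eq_zero] at this
        exact this
      induction ht using Submodule.span_induction with
      | mem t ht =>
        intro x hx
        rw [hwd x (g t) (hx.trans (hg t).symm)]
        apply Submodule.subset_span
        simp only [Finset.coe_image]
        exact ⟨t, ht, rfl⟩
      | zero =>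
        intro x hx
        rw [hwd x 0 hx]
        simp
      | add a b _ _ iha ihb =>
        intro x hx
        rw [hwd x (g a + g b) (by rw [hx, Submodule.Quotient.mk_add, hg, hg])]
        rw [Submodule.coe_add, map_add]
        exact W.add_mem (iha _ (hg a)) (ihb _ (hg b))
      | smul p a _ ih =>
        intro x hx
        rw [hwd x (p • g a) (by rw [hx, Submodule.Quotient.mk_smul, hg])]
        rw [Submodule.coe_smul, smul_eq_mul, hφJ _ (g a).2]
        exact W.smul_mem _ (ih _ (hg a))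
    exact key _ hx x rfl
  have htop : W = ⊤ := by
    rw [eq_top_iff, ← (Pi.basisFun 𝕂 A).span_eq, Submodule.span_le]
    rintro _ ⟨a, rfl⟩
    have h1 : (monomial a.1 (1 : 𝕂)) ∈ J := by
      rw [hJ]
      intro c hc
      have := support_monomial_subset hc
      rw [Finset.mem_singleton] at this
      rw [this]
      exact hA a.1 a.2
    have h2 := hW ⟨_, h1⟩
    have h3 : φ (monomial a.1 (1 : 𝕂)) = Pi.basisFun 𝕂 A a := by
      funext b
      rw [hφ, coeff_monomial, Pi.basisFun_apply, Pi.single_apply]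
      by_cases hab : b = a
      · subst hab
        simp
      · rw [if_neg hab, if_neg]
        intro h
        exact hab (Subtype.ext h.symm)
    rw [← h3]
    exact h2
  have hc : Module.finrank 𝕂 W ≤ (T.image fun t => φ (g t).1).card :=
    finrank_span_finset_le_card _
  rw [htop, finrank_top, Module.finrank_fintype_fun_eq_card, Fintype.card_coe] at hc
  exact hc.trans Finset.card_image_le

/-! ### The complex -/

theorem facet_skel {n : ℕ} (Δ : Cplx n) (i : ℕ) (F : Finset (Fin n)) :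
    (Δ.skel i).IsFacet F ↔ F ∈ Δ.faces ∧ F.card = i + 1 := by
  simp only [Cplx.IsFacet, Cplx.skel, Finset.mem_filter]
  constructor
  · rintro ⟨⟨h1, F', h2, h3, h4⟩, h5⟩
    have := h5 F' ⟨h2, F', h2, h3, le_rfl⟩ h4
    subst this
    exact ⟨h1, h3⟩
  · rintro ⟨h1, h2⟩
    refine ⟨⟨h1, F, h1, h2, le_rfl⟩, ?_⟩
    rintro G ⟨-, F', -, h3, h4⟩ h5
    apply Finset.Subset.antisymm _ h5
    have h6 : F = F' := Finset.eq_of_subset_of_card_le (h5.trans h4) (by omega)
    rw [h6]
    exact h4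

/-- The faces of dimension `i`. -/
def E {n : ℕ} (Δ : Cplx n) (i : ℕ) : Set (Finset (Fin n)) := {F | F ∈ Δ.faces ∧ F.card = i + 1}

theorem facetIdeal_skel {n : ℕ} (Δ : Cplx n) (i : ℕ) :
    facetIdeal 𝕂 (Δ.skel i) = edgeIdeal 𝕂 (E Δ i) := by
  rw [facetIdeal, edgeIdeal]
  congr 1
  ext p
  simp only [facet_skel, E, Set.mem_ofPred_eq]

/-- The example: all sets of vertices in `{0, …, 6}` that do not contain `{3, 4, 5, 6}`. -/
def ex : Cplx 7 where
  faces := {F | ¬ ({3, 4, 5, 6} : Finset (Fin 7)) ⊆ F}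
  down := by
    intro F hF G hG
    simp only [Finset.mem_filter, Finset.mem_univ, true_and] at hF ⊢
    exact fun h => hF (h.trans hG)

theorem ex_dim : ex.dim = 5 := by decide +kernel

theorem mem_ex (F : Finset (Fin 7)) : F ∈ ex.faces ↔ ¬ ({3, 4, 5, 6} : Finset (Fin 7)) ⊆ F := by
  simp [ex]

theorem covers_iff {i : ℕ} (hi : i ≤ 2) (C : Finset (Fin 7)) : Covers (E ex i) C ↔ Cᶜ.card ≤ i := by
  constructor
  · intro h
    by_contra hcon
    obtain ⟨F, hF, hFc⟩ := Finset.exists_subset_card_eq (s := Cᶜ) (n := i + 1) (by omega)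
    have h1 : F ∈ ex.faces := by
      rw [mem_ex]
      intro h2
      have := Finset.card_le_card h2
      have h3 : ({3, 4, 5, 6} : Finset (Fin 7)).card = 4 := by decide
      omega
    obtain ⟨v, hv, hvC⟩ := h F ⟨h1, hFc⟩
    exact (Finset.mem_compl.mp (hF hv)) hvC
  · intro h F hF
    by_contra hcon
    push Not at hcon
    have h1 : F ⊆ Cᶜ := fun v hv => Finset.mem_compl.mpr (hcon v hv)
    have h2 := Finset.card_le_card h1
    have h3 := hF.2
    omega

theorem covers_three (C : Finset (Fin 7)) (h : Covers (E ex 3) C) :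
    {0, 1, 2} ⊆ C ∨ {3, 4, 5, 6} ⊆ C ∨ (4 ≤ C.card ∧ (0 ∈ C ∨ 1 ∈ C ∨ 2 ∈ C)) := by
  have h1 : ∀ F : Finset (Fin 7), (¬ ({3, 4, 5, 6} : Finset (Fin 7)) ⊆ F ∧ F.card = 4) →
      ∃ v ∈ F, v ∈ C := fun F hF => h F ⟨(mem_ex F).mpr hF.1, hF.2⟩
  clear h
  revert C
  decide +kernel

theorem covers_three' : Covers (E ex 3) {0, 1, 2} ∧ Covers (E ex 3) {3, 4, 5, 6} := by
  have h1 : ∀ F : Finset (Fin 7), (¬ ({3, 4, 5, 6} : Finset (Fin 7)) ⊆ F ∧ F.card = 4) →
      (∃ v ∈ F, v ∈ ({0, 1, 2} : Finset (Fin 7))) ∧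
      (∃ v ∈ F, v ∈ ({3, 4, 5, 6} : Finset (Fin 7))) := by
    decide +kernel
  exact ⟨fun F hF => (h1 F ⟨(mem_ex F).mp hF.1, hF.2⟩).1,
    fun F hF => (h1 F ⟨(mem_ex F).mp hF.1, hF.2⟩).2⟩

/-- The exponents of the monomials in the symbolic power. -/
def EJ (i m : ℕ) : Set (Fin 7 →₀ ℕ) := {c | ∀ C, Covers (E ex i) C → m ≤ ∑ v ∈ C, c v}

theorem mem_symb_ex {i m : ℕ} (f : MvPolynomial (Fin 7) 𝕂) :
    f ∈ symb (facetIdeal 𝕂 (ex.skel i)) m ↔ ∀ c ∈ f.support, c ∈ EJ i m := by
  rw [facetIdeal_skel, mem_symb]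
  rfl

theorem coeff_pow_eq_zero {i m : ℕ} {f : MvPolynomial (Fin 7) 𝕂}
    (hf : f ∈ (facetIdeal 𝕂 (ex.skel i)) ^ m) {a : Fin 7 →₀ ℕ} (ha : ∑ v, a v < (i + 1) * m) :
    coeff a f = 0 := by
  by_contra hcon
  have hle : facetIdeal 𝕂 (ex.skel i) ≤ D 𝕂 Finset.univ (i + 1) := by
    rw [facetIdeal_skel, edgeIdeal, Ideal.span_le]
    rintro p ⟨F, hF, rfl⟩
    have h1 : (∏ v ∈ F, X v : MvPolynomial (Fin 7) 𝕂) =
        monomial (∑ v ∈ F, Finsupp.single v 1) 1 := by
      rw [MvPolynomial.monomial_sum_one]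
      rfl
    rw [h1]
    intro c hc
    have h2 := support_monomial_subset hc
    rw [Finset.mem_singleton] at h2
    rw [h2]
    simp only [Finsupp.coe_finsetSum, Finset.sum_apply]
    rw [Finset.sum_comm]
    have h3 : ∀ v ∈ F, ∑ w : Fin 7, (Finsupp.single v 1 : Fin 7 →₀ ℕ) w = 1 := by
      intro v _
      rw [Finset.sum_eq_single v]
      · simp
      · intro w _ hw
        rw [Finsupp.single_apply, if_neg hw.symm]
      · simp
    rw [Finset.sum_congr rfl h3]
    simp [hF.2]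
  have := pow_le_D hle m hf a (mem_support_iff.mpr hcon)
  omega

/-! ### Lower bounds -/

/-- The first family of exponents. -/
def v1 (s : ℕ) (x : Fin 5 → Fin s) : Fin 7 → ℕ :=
  ![100 * s + x 0, 100 * s + x 1, 100 * s + x 2, 100 * s + x 3, 100 * s + x 4,
    700 * s - (x 0 + x 1 + x 2 + x 3 + x 4), 700 * s - (x 0 + x 1 + x 2 + x 3 + x 4)]

/-- The second family of exponents. -/
def v3 (s : ℕ) (x : Fin 5 → Fin s) : Fin 7 → ℕ :=
  ![400 * s + x 0, 400 * s + x 1, 400 * s - (x 0 + x 1), 300 * s + x 2, 300 * s + x 3,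
    300 * s + x 4, 300 * s - (x 2 + x 3 + x 4)]

/-- The exponents as finitely supported functions. -/
noncomputable def fs (w : Fin 7 → ℕ) : Fin 7 →₀ ℕ := Finsupp.equivFunOnFinite.symm w

theorem fs_apply (w : Fin 7 → ℕ) (i : Fin 7) : fs w i = w i := rfl

theorem fs_inj {w w' : Fin 7 → ℕ} (h : fs w = fs w') : w = w' :=
  Finsupp.equivFunOnFinite.symm.injective h

theorem bound1 (s : ℕ) (x : Fin 5 → Fin s) : fs (v1 s x) ∈ EJ 1 (1200 * s) ∧
    (∀ c ∈ EJ 1 (1200 * s), c ≤ fs (v1 s x) → c = fs (v1 s x)) ∧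
    ∑ v, fs (v1 s x) v < (1 + 1) * (1200 * s) := by
  have h0 := (x 0).2
  have h1 := (x 1).2
  have h2 := (x 2).2
  have h3 := (x 3).2
  have h4 := (x 4).2
  refine ⟨?_, ?_, ?_⟩
  · intro C hC
    rw [covers_iff (by norm_num)] at hC
    have ht := Finset.sum_add_sum_compl C (fun v => fs (v1 s x) v)
    have hb : ∀ v, fs (v1 s x) v ≤ 700 * s - (x 0 + x 1 + x 2 + x 3 + x 4) := by
      intro v
      rw [fs_apply]
      fin_cases v <;> simp [v1] <;> omega
    have hc : ∑ v ∈ Cᶜ, fs (v1 s x) v ≤ 700 * s - (x 0 + x 1 + x 2 + x 3 + x 4) := by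
      calc ∑ v ∈ Cᶜ, fs (v1 s x) v ≤ Cᶜ.card • (700 * s - (x 0 + x 1 + x 2 + x 3 + x 4)) :=
            Finset.sum_le_card_nsmul _ _ _ fun v _ => hb v
        _ ≤ 1 • (700 * s - (x 0 + x 1 + x 2 + x 3 + x 4)) := Nat.mul_le_mul_right _ hC
        _ = _ := one_smul _ _
    have htot : ∑ v, fs (v1 s x) v = 1900 * s - (x 0 + x 1 + x 2 + x 3 + x 4) := by
      simp only [fs_apply, v1, Fin.sum_univ_seven]
      simp
      omega
    rw [htot] at ht
    omega
  · intro c hc hle
    have e5 := hc {0, 1, 2, 3, 4, 6} ((covers_iff (by norm_num) _).mpr (by decide))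
    have e6 := hc {0, 1, 2, 3, 4, 5} ((covers_iff (by norm_num) _).mpr (by decide))
    have g0 := hle 0
    have g1 := hle 1
    have g2 := hle 2
    have g3 := hle 3
    have g4 := hle 4
    have g5 := hle 5
    have g6 := hle 6
    simp [fs_apply, v1] at g0 g1 g2 g3 g4 g5 g6
    simp at e5 e6
    ext v
    fin_cases v <;> simp [fs_apply, v1] <;> omega
  · simp only [fs_apply, v1, Fin.sum_univ_seven]
    simp
    omega

theorem bound3 (s : ℕ) (x : Fin 5 → Fin s) : fs (v3 s x) ∈ EJ 3 (1200 * s) ∧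
    (∀ c ∈ EJ 3 (1200 * s), c ≤ fs (v3 s x) → c = fs (v3 s x)) ∧
    ∑ v, fs (v3 s x) v < (3 + 1) * (1200 * s) := by
  have h0 := (x 0).2
  have h1 := (x 1).2
  have h2 := (x 2).2
  have h3 := (x 3).2
  have h4 := (x 4).2
  refine ⟨?_, ?_, ?_⟩
  · intro C hC
    rcases covers_three C hC with h | h | ⟨hc, h⟩
    · refine le_trans ?_ (Finset.sum_le_sum_of_subset h)
      simp [fs_apply, v3]
      omega
    · refine le_trans ?_ (Finset.sum_le_sum_of_subset h)
      simp [fs_apply, v3]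
      omega
    · have hb : ∀ v, 297 * s ≤ fs (v3 s x) v := by
        intro v
        rw [fs_apply]
        fin_cases v <;> simp [v3] <;> omega
      have key : ∀ w ∈ C, 398 * s ≤ fs (v3 s x) w → 1200 * s ≤ ∑ v ∈ C, fs (v3 s x) v := by
        intro w hw hw2
        rw [← Finset.add_sum_erase _ _ hw]
        have h5 : (C.erase w).card • (297 * s) ≤ ∑ v ∈ C.erase w, fs (v3 s x) v :=
          Finset.card_nsmul_le_sum _ _ _ fun v _ => hb v
        have h6 : 3 • (297 * s) ≤ (C.erase w).card • (297 * s) := by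
          apply Nat.mul_le_mul_right
          rw [Finset.card_erase_of_mem hw]
          omega
        rw [smul_eq_mul] at h6
        have h7 := h6.trans h5
        omega
      rcases h with h | h | h
      · exact key 0 h (by simp [fs_apply, v3]; omega)
      · exact key 1 h (by simp [fs_apply, v3]; omega)
      · exact key 2 h (by simp [fs_apply, v3]; omega)
  · intro c hc hle
    have e5 := hc _ covers_three'.1
    have e6 := hc _ covers_three'.2
    have g0 := hle 0
    have g1 := hle 1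
    have g2 := hle 2
    have g3 := hle 3
    have g4 := hle 4
    have g5 := hle 5
    have g6 := hle 6
    simp [fs_apply, v3] at g0 g1 g2 g3 g4 g5 g6
    simp at e5 e6
    ext v
    fin_cases v <;> simp [fs_apply, v3] <;> omega
  · simp only [fs_apply, v3, Fin.sum_univ_seven]
    simp
    omega

theorem v1_inj (s : ℕ) : Function.Injective fun x => fs (v1 s x) := by
  intro x y h
  have h := fs_inj h
  have g0 := congrFun h 0
  have g1 := congrFun h 1
  have g2 := congrFun h 2
  have g3 := congrFun h 3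
  have g4 := congrFun h 4
  simp [v1] at g0 g1 g2 g3 g4
  ext i
  fin_cases i <;> simp [g0, g1, g2, g3, g4]

theorem v3_inj (s : ℕ) : Function.Injective fun x => fs (v3 s x) := by
  intro x y h
  have h := fs_inj h
  have g0 := congrFun h 0
  have g1 := congrFun h 1
  have g2 := congrFun h 3
  have g3 := congrFun h 4
  have g4 := congrFun h 5
  simp [v3] at g0 g1 g2 g3 g4
  ext i
  fin_cases i <;> simp [g0, g1, g2, g3, g4]

theorem lower1 (s : ℕ) : s ^ 5 ≤ muCoeff 𝕂 ex (1200 * s) 1 := by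
  classical
  have h := le_numGen (𝕂 := 𝕂) (J := symb (facetIdeal 𝕂 (ex.skel 1)) (1200 * s))
    (K := (facetIdeal 𝕂 (ex.skel 1)) ^ (1200 * s)) (EJ := EJ 1 (1200 * s))
    mem_symb_ex (Finset.univ.image fun x => fs (v1 s x))
    (by
      intro a ha
      obtain ⟨x, -, rfl⟩ := Finset.mem_image.mp ha
      exact (bound1 s x).1)
    (by
      intro a ha
      obtain ⟨x, -, rfl⟩ := Finset.mem_image.mp ha
      exact (bound1 s x).2.1)
    (by
      intro a ha f hf
      obtain ⟨x, -, rfl⟩ := Finset.mem_image.mp ha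
      exact coeff_pow_eq_zero hf (bound1 s x).2.2)
  rw [Finset.card_image_of_injective _ (v1_inj s)] at h
  simpa [muCoeff, sdefect] using h

theorem lower3 (s : ℕ) : s ^ 5 ≤ muCoeff 𝕂 ex (1200 * s) 3 := by
  classical
  have h := le_numGen (𝕂 := 𝕂) (J := symb (facetIdeal 𝕂 (ex.skel 3)) (1200 * s))
    (K := (facetIdeal 𝕂 (ex.skel 3)) ^ (1200 * s)) (EJ := EJ 3 (1200 * s))
    mem_symb_ex (Finset.univ.image fun x => fs (v3 s x))
    (by
      intro a ha
      obtain ⟨x, -, rfl⟩ := Finset.mem_image.mp ha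
      exact (bound3 s x).1)
    (by
      intro a ha
      obtain ⟨x, -, rfl⟩ := Finset.mem_image.mp ha
      exact (bound3 s x).2.1)
    (by
      intro a ha f hf
      obtain ⟨x, -, rfl⟩ := Finset.mem_image.mp ha
      exact coeff_pow_eq_zero hf (bound3 s x).2.2)
  rw [Finset.card_image_of_injective _ (v3_inj s)] at h
  simpa [muCoeff, sdefect] using h

/-! ### The upper bound -/

/-- The minimal exponents. -/
def MinE (m : ℕ) : Set (Fin 7 →₀ ℕ) := {a | a ∈ EJ 2 m ∧ ∀ c ∈ EJ 2 m, c ≤ a → c = a}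

/-- The parametrisation of the minimal exponents. -/
noncomputable def param (m : ℕ) (p : Equiv.Perm (Fin 7) × (Fin 4 → Fin (m + 1))) : Fin 7 →₀ ℕ :=
  fs fun v => (![(p.2 0 : ℕ), p.2 1, p.2 2, p.2 3, m - (p.2 0 + p.2 1 + p.2 2 + p.2 3),
    m - (p.2 0 + p.2 1 + p.2 2 + p.2 3), m - (p.2 0 + p.2 1 + p.2 2 + p.2 3)] : Fin 7 → ℕ)
      (p.1.symm v)

theorem sorted_sum (b : Fin 7 → ℕ) (h01 : b 0 ≤ b 1) (h12 : b 1 ≤ b 2) (h23 : b 2 ≤ b 3)
    (h34 : b 3 ≤ b 4) (h45 : b 4 ≤ b 5) (h56 : b 5 ≤ b 6) (C : Finset (Fin 7))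
    (hC : Cᶜ.card ≤ 2) (h6 : 6 ∈ C) : b 0 + b 1 + b 2 + b 3 + b 6 ≤ ∑ v ∈ C, b v := by
  have e1 : ∑ v ∈ C, b v = ∑ v : Fin 7, if v ∈ C then b v else 0 := by
    rw [Finset.sum_ite_mem, Finset.univ_inter]
  have e2 : Cᶜ.card = ∑ v : Fin 7, if v ∈ C then 0 else 1 := by
    have h : Cᶜ = Finset.univ.filter fun v => v ∉ C := by
      ext v
      simp
    rw [h, Finset.card_filter]
    refine Finset.sum_congr rfl fun v _ => ?_
    split_ifs <;> simp_all
  rw [e1]
  rw [e2] at hC
  rw [Fin.sum_univ_seven] at hC ⊢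
  rw [if_pos h6] at hC ⊢
  split_ifs at hC ⊢ <;> omega

theorem min_param {m : ℕ} {a : Fin 7 →₀ ℕ} (ha : a ∈ MinE m) : ∃ p, param m p = a := by
  obtain ⟨hJ, hmin⟩ := ha
  let σ : Equiv.Perm (Fin 7) := Tuple.sort (fun v => a v)
  have hmono : Monotone ((fun v => a v) ∘ σ) := Tuple.monotone_sort _
  set b : Fin 7 → ℕ := (fun v => a v) ∘ σ with hb
  have h01 : b 0 ≤ b 1 := hmono (by decide)
  have h12 : b 1 ≤ b 2 := hmono (by decide)
  have h23 : b 2 ≤ b 3 := hmono (by decide)
  have h34 : b 3 ≤ b 4 := hmono (by decide)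
  have h45 : b 4 ≤ b 5 := hmono (by decide)
  have h56 : b 5 ≤ b 6 := hmono (by decide)
  -- the sum over a set in terms of `b`
  have hsum : ∀ C : Finset (Fin 7), ∑ v ∈ C, a v = ∑ v ∈ C.map σ.symm.toEmbedding, b v := by
    intro C
    rw [Finset.sum_map]
    refine Finset.sum_congr rfl fun v _ => ?_
    simp [hb]
  have hcompl : ∀ C : Finset (Fin 7), (C.map σ.symm.toEmbedding)ᶜ.card = Cᶜ.card := by
    intro C
    rw [Finset.card_compl, Finset.card_compl, Finset.card_map]
  have hm : m ≤ b 0 + b 1 + b 2 + b 3 + b 4 := by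
    have h1 := hJ (({0, 1, 2, 3, 4} : Finset (Fin 7)).map σ.toEmbedding)
      ((covers_iff le_rfl _).mpr (by
        rw [Finset.card_compl, Finset.card_map]
        decide))
    rw [Finset.sum_map] at h1
    simp at h1
    simp only [hb, Function.comp_apply]
    omega
  have hM : b 4 = b 5 ∧ b 5 = b 6 ∧ m = b 0 + b 1 + b 2 + b 3 + b 4 := by
    by_cases h0 : b 6 = 0
    · omega
    · have h1 : ∃ C, Covers (E ex 2) C ∧ σ 6 ∈ C ∧ ∑ v ∈ C, a v ≤ m := by
        by_contra hcon
        push Not at hcon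
        have h2 : a - Finsupp.single (σ 6) 1 ∈ EJ 2 m := by
          intro C hC
          by_cases h3 : σ 6 ∈ C
          · have h4 := hcon C hC h3
            have h5 : ∑ v ∈ C, (a - Finsupp.single (σ 6) 1 : Fin 7 →₀ ℕ) v + 1 = ∑ v ∈ C, a v := by
              rw [← Finset.add_sum_erase _ _ h3, ← Finset.add_sum_erase _ _ h3]
              have h6 : ∑ v ∈ C.erase (σ 6), (a - Finsupp.single (σ 6) 1 : Fin 7 →₀ ℕ) v =
                  ∑ v ∈ C.erase (σ 6), a v := by
                refine Finset.sum_congr rfl fun v hv => ?_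
                have := Finset.ne_of_mem_erase hv
                simp [this.symm]
              rw [h6]
              have h7 : (a - Finsupp.single (σ 6) 1 : Fin 7 →₀ ℕ) (σ 6) + 1 = a (σ 6) := by
                have : a (σ 6) ≠ 0 := h0
                simp
                omega
              omega
            omega
          · refine (hJ C hC).trans (le_of_eq ?_)
            refine Finset.sum_congr rfl fun v hv => ?_
            have : σ 6 ≠ v := fun h => h3 (h ▸ hv)
            simp [this]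
        have h3 := hmin _ h2 tsub_le_self
        have h4 := DFunLike.congr_fun h3 (σ 6)
        have h5 : a (σ 6) ≠ 0 := h0
        simp at h4
        omega
      obtain ⟨C, hC, h6, h2⟩ := h1
      have h3 := sorted_sum b h01 h12 h23 h34 h45 h56 (C.map σ.symm.toEmbedding)
        (by rw [hcompl]; exact (covers_iff le_rfl _).mp hC)
        (by
          rw [Finset.mem_map]
          exact ⟨σ 6, h6, by simp⟩)
      rw [← hsum] at h3
      omega
  obtain ⟨e1, e2, e3⟩ := hM
  refine ⟨(σ, ![⟨b 0, by omega⟩, ⟨b 1, by omega⟩, ⟨b 2, by omega⟩, ⟨b 3, by omega⟩]), ?_⟩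
  ext v
  rw [param, fs_apply]
  obtain ⟨i, rfl⟩ := σ.surjective v
  simp only [Equiv.symm_apply_apply]
  have h7 : a (σ i) = b i := rfl
  rw [h7]
  fin_cases i <;> simp <;> omega

theorem minE_finite (m : ℕ) : (MinE m).Finite :=
  (Set.finite_range (param m)).subset fun _ ha => min_param ha

theorem minE_card (m : ℕ) : (MinE m).ncard ≤ 5040 * (m + 1) ^ 4 := by
  have h1 : (MinE m).ncard ≤ (Set.range (param m)).ncard :=
    Set.ncard_le_ncard (fun _ ha => min_param ha) (Set.finite_range _)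
  have h2 : (Set.range (param m)).ncard ≤
      Fintype.card (Equiv.Perm (Fin 7) × (Fin 4 → Fin (m + 1))) := by
    rw [← Set.image_univ, ← Nat.card_eq_fintype_card, ← Set.ncard_univ]
    exact Set.ncard_image_le Set.finite_univ
  have h3 : Fintype.card (Equiv.Perm (Fin 7) × (Fin 4 → Fin (m + 1))) = 5040 * (m + 1) ^ 4 := by
    rw [Fintype.card_prod, Fintype.card_perm, Fintype.card_fun]
    simp [Nat.factorial]
  omega

theorem exists_minE {m : ℕ} {c : Fin 7 →₀ ℕ} (hc : c ∈ EJ 2 m) : ∃ a ∈ MinE m, a ≤ c := by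
  have hwf : ∀ k : ℕ, ∀ c : Fin 7 →₀ ℕ, c ∈ EJ 2 m → ∑ v, c v ≤ k → ∃ a ∈ MinE m, a ≤ c := by
    intro k
    induction k with
    | zero =>
      intro c hc h
      refine ⟨c, ⟨hc, fun d _ hdc => ?_⟩, le_rfl⟩
      ext v
      have h1 := hdc v
      have h2 : c v ≤ ∑ v, c v := Finset.single_le_sum (fun _ _ => Nat.zero_le _) (Finset.mem_univ v)
      omega
    | succ k ih =>
      intro c hc h
      by_cases hmin : ∀ d ∈ EJ 2 m, d ≤ c → d = c
      · exact ⟨c, ⟨hc, hmin⟩, le_rfl⟩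
      · push Not at hmin
        obtain ⟨d, hd, hdc, hne⟩ := hmin
        have h1 : ∑ v, d v < ∑ v, c v := by
          obtain ⟨v, hv⟩ : ∃ v, d v ≠ c v := by
            by_contra hcon
            push Not at hcon
            exact hne (Finsupp.ext hcon)
          exact Finset.sum_lt_sum (fun w _ => hdc w) ⟨v, Finset.mem_univ v, lt_of_le_of_ne (hdc v) hv⟩
        obtain ⟨a, ha, had⟩ := ih d hd (by omega)
        exact ⟨a, ha, had.trans hdc⟩
  exact hwf _ c hc le_rfl

theorem upper2 (m : ℕ) : muCoeff 𝕂 ex m 2 ≤ 5040 * (m + 1) ^ 4 := by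
  classical
  let G : Set (MvPolynomial (Fin 7) 𝕂) := (fun a => monomial a (1 : 𝕂)) '' MinE m
  have hG : G.Finite := (minE_finite m).image _
  have h1 := numGen_le (J := symb (facetIdeal 𝕂 (ex.skel 2)) m)
    (K := (facetIdeal 𝕂 (ex.skel 2)) ^ m) G hG
    (by
      rintro _ ⟨a, ha, rfl⟩
      rw [SetLike.mem_coe, mem_symb_ex]
      intro c hc
      have h2 := support_monomial_subset hc
      rw [Finset.mem_singleton] at h2
      rw [h2]
      exact ha.1)
    (by
      intro f hf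
      rw [mem_symb_ex] at hf
      rw [f.as_sum]
      refine Ideal.sum_mem _ fun c hc => ?_
      obtain ⟨a, ha, hac⟩ := exists_minE (hf c hc)
      have h3 : monomial c (coeff c f) = monomial (c - a) (coeff c f) * monomial a (1 : 𝕂) := by
        rw [monomial_mul, mul_one, tsub_add_cancel_of_le hac]
      rw [h3]
      exact Ideal.mul_mem_left _ _ (Ideal.subset_span ⟨a, ha, rfl⟩))
  calc muCoeff 𝕂 ex m 2 ≤ G.ncard := h1
    _ ≤ (MinE m).ncard := Set.ncard_image_le (minE_finite m)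
    _ ≤ _ := minE_card m

/-- There is a simplicial complex whose symbolic defect polynomials are not asymptotically
quasi-unimodal. -/
theorem result (𝕂 : Type*) [Field 𝕂] :
    ∃ (n : ℕ) (Δ : Cplx n), (∀ v, {v} ∈ Δ.faces) ∧ ¬ AsympQuasiUnimodal 𝕂 Δ := by
  refine ⟨7, ex, ?_, ?_⟩
  · intro v
    rw [mem_ex]
    intro h
    have := Finset.card_le_card h
    have h3 : ({3, 4, 5, 6} : Finset (Fin 7)).card = 4 := by decide
    rw [h3, Finset.card_singleton] at this
    omega
  · rintro ⟨k, hk, N, h⟩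
    rw [ex_dim] at h
    let s : ℕ := k * (N + 5040 * 1201 ^ 4 + 1)
    have hs1 : N ≤ s := by
      calc N ≤ 1 * (N + 5040 * 1201 ^ 4 + 1) := by omega
        _ ≤ _ := Nat.mul_le_mul_right _ hk
    have hs2 : 5040 * 1201 ^ 4 + 1 ≤ s := by
      calc 5040 * 1201 ^ 4 + 1 ≤ 1 * (N + 5040 * 1201 ^ 4 + 1) := by omega
        _ ≤ _ := Nat.mul_le_mul_right _ hk
    have hs3 : 1 ≤ s := by omega
    have hu := h (1200 * s) (by omega) ((Dvd.intro _ rfl : k ∣ s).mul_left 1200)
    have l1 := lower1 (𝕂 := 𝕂) s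
    have l3 := lower3 (𝕂 := 𝕂) s
    have u2 := upper2 (𝕂 := 𝕂) (1200 * s)
    have hlt : 5040 * (1200 * s + 1) ^ 4 < s ^ 5 := by
      calc 5040 * (1200 * s + 1) ^ 4 ≤ 5040 * (1201 * s) ^ 4 := by
            apply Nat.mul_le_mul_left
            apply Nat.pow_le_pow_left
            omega
        _ = (5040 * 1201 ^ 4) * s ^ 4 := by rw [mul_pow, mul_assoc]
        _ < s * s ^ 4 := by
            apply Nat.mul_lt_mul_of_pos_right
            · omega
            · positivity
        _ = s ^ 5 := by ring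
    rcases hu with h0 | ⟨j, hj1, hj2, hup, hdown⟩
    · omega
    · by_cases hj : j = 1
      · have h5 : muCoeff 𝕂 ex (1200 * s) 3 ≤ muCoeff 𝕂 ex (1200 * s) 2 :=
          hdown 2 (by omega) (by norm_num)
        omega
      · have h5 : muCoeff 𝕂 ex (1200 * s) 1 ≤ muCoeff 𝕂 ex (1200 * s) 2 :=
          hup 1 le_rfl (by omega)
        omega

end Pool.Agent.Results.MP_2a0133_al.Valley
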